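import Mathlib
import Pool.Agent.Helper87.TA.Defs
import Pool.Agent.Helper87.TA.St.RowA

/-!
# Project TB: three blocks, definitions

Polynomials in the coordinates of points indexed by `S`; sums over the balanced maps `S → Fin m`; the polynomials `Dl` (determinant of
three points in 3-space) and `DD` (discriminant of three points in the plane).
-/

set_option autoImplicit false

open MvPolynomial Finset

namespace Helper87.TB

open Helper87.TR Helper87.TA

/-- polynomials of degree `d s` in the coordinates of the point `s`, for every `s` -/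
noncomputable def RG {S : Type} (r : ℕ) (d : S → ℕ) : Submodule ℚ (MvPolynomial (S × Fin r) ℚ) where
  carrier := {f | ∀ e, coeff e f ≠ 0 → ∀ s, ∑ j, e (s, j) = d s}
  zero_mem' := fun e h => absurd (coeff_zero e) h
  add_mem' := by
    intro f g hf hg e h
    by_cases h1 : coeff e f = 0
    · exact hg e fun h2 => h (by rw [coeff_add, h1, h2, add_zero])
    · exact hf e h1
  smul_mem' := by
    intro c f hf e h
    exact hf e fun h1 => h (by rw [coeff_smul, h1, smul_zero])

/-- maps with all fibres of size `a` -/
def Bl (S : Type) [Fintype S] [DecidableEq S] (m a : ℕ) : Finset (S → Fin m) :=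
  univ.filter fun κ => ∀ i, (univ.filter fun s => κ s = i).card = a

/-- substitution of the points of `Fin m` for the points of `S` -/
noncomputable def Rk {S : Type} {m : ℕ} (r : ℕ) (κ : S → Fin m) :
    MvPolynomial (S × Fin r) ℚ →ₐ[ℚ] MvPolynomial (Fin m × Fin r) ℚ :=
  rename fun p : S × Fin r => (κ p.1, p.2)

/-- sum over the balanced substitutions -/
noncomputable def RS (S : Type) [Fintype S] [DecidableEq S] (m r a : ℕ) :
    MvPolynomial (S × Fin r) ℚ →ₗ[ℚ] MvPolynomial (Fin m × Fin r) ℚ :=
  ∑ κ ∈ Bl S m a, (Rk r κ).toLinearMap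

/-- the image of the polynomials of degree `c` in every point -/
noncomputable def Im (S : Type) [Fintype S] [DecidableEq S] (m r a c : ℕ) :
    Submodule ℚ (MvPolynomial (Fin m × Fin r) ℚ) := (RG r fun _ : S => c).map (RS S m r a)

/-- polynomials multiplied by the `k`-th power of the sign by permutations of the points -/
noncomputable def Eqs (m r k : ℕ) : Submodule ℚ (MvPolynomial (Fin m × Fin r) ℚ) where
  carrier := {f | ∀ σ : Equiv.Perm (Fin m), rename (fun p : Fin m × Fin r => (σ p.1, p.2)) f =
    (((Equiv.Perm.sign σ : ℤ) : ℚ) ^ k) • f}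
  zero_mem' := by
    intro σ
    rw [map_zero, smul_zero]
  add_mem' := by
    intro f g hf hg σ
    rw [map_add, hf σ, hg σ, smul_add]
  smul_mem' := by
    intro c f hf σ
    rw [map_smul, hf σ, smul_comm]

/-- weight `1` for the last of three coordinates -/
def wt (S : Type) : S × Fin 3 → ℕ := fun p => if p.2 = 2 then 1 else 0

/-- polynomials of degree `k` in the last coordinates -/
noncomputable def Wd (k : ℕ) : Submodule ℚ (MvPolynomial (Fin 3 × Fin 3) ℚ) :=
  weightedHomogeneousSubmodule ℚ (wt (Fin 3)) k

/-- the derivation replacing the coordinate `l` by the coordinate `j` -/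
noncomputable def Ed (S : Type) [Fintype S] {r : ℕ} (j l : Fin r) :
    Derivation ℚ (MvPolynomial (S × Fin r) ℚ) (MvPolynomial (S × Fin r) ℚ) :=
  ∑ s : S, (X (s, j) : MvPolynomial (S × Fin r) ℚ) • pderiv (s, l)

/-- polynomials in three points of the plane, of degree `n` in each point, with the `k`-th power of the sign -/
noncomputable def B (n k : ℕ) : Submodule ℚ (MvPolynomial (Fin 3 × Fin 3) ℚ) :=
  RH 3 (fun _ : Fin 3 => n) ⊓ Eqs 3 3 k ⊓ Wd 0

/-- `2 × 2` minor of the first two coordinates of the points `i`, `j` -/
noncomputable def mi {S : Type} (i j : S) : MvPolynomial (S × Fin 3) ℚ :=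
  X (i, 0) * X (j, 1) - X (j, 0) * X (i, 1)

/-- determinant of three points -/
noncomputable def dt {S : Type} (i j k : S) : MvPolynomial (S × Fin 3) ℚ :=
  X (i, 2) * mi j k + X (j, 2) * mi k i + X (k, 2) * mi i j

/-- the determinant of the three points -/
noncomputable def Dl : MvPolynomial (Fin 3 × Fin 3) ℚ := dt 0 1 2

/-- the discriminant -/
noncomputable def DD : MvPolynomial (Fin 3 × Fin 3) ℚ := mi 1 2 * mi 2 0 * mi 0 1

end Helper87.TB
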